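import Pool.Agent.P.MP_f57657_co.Main

/-! With high probability no switching of linear size gives a cospectral mate of the 2-core. -/

open Filter Topology Pool.Agent.P.MP_f57657_co

namespace Pool.Agent.P.MP_f57657_co.Old.LinearSwitching

theorem result (ε : ℝ) (hε : 0 < ε) : ∃ δ : ℝ, 0 < δ ∧ ∀ p : ℕ → unitInterval,
    (∀ᶠ n : ℕ in atTop, 1 + ε ≤ (n : ℝ) * (p n : ℝ) ∧ (p n : ℝ) ≤ 1 / 2) →
    Tendsto (fun n : ℕ => (SimpleGraph.binomialRandom (Fin n) (p n)).real
      {G | ∀ (c : G.ConnectedComponent) (H : SimpleGraph (core2 G c.supp)),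
        IsSwitching (G.induce (core2 G c.supp)) H (δ * (n : ℝ)) →
          Nonempty (H ≃g G.induce (core2 G c.supp))}) atTop (𝓝 1) :=
  main hε

end Pool.Agent.P.MP_f57657_co.Old.LinearSwitching
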